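import Pool.Agent.W845.HC.Base

/-!
# Project HC, part GIRTH: killing short cycles
-/

set_option autoImplicit false
open scoped Classical
open scoped BigOperators

namespace Pool.Agent.W174.HC

open Pool.Agent.W845.PM Pool.Agent.W845.HC

noncomputable section

/-- the rooted oriented cycles of length `l + 3` -/
def cy {V : Type} [Fintype V] (G : SimpleGraph V) (l : ℕ) : Finset (Fin (l + 3) → V) :=
  Finset.univ.filter (fun f : Fin (l + 3) → V =>
    Function.Injective f ∧ ∀ i : Fin (l + 3), G.Adj (f i) (f (i + 1)))

/-- the removed edges -/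
def rem {V : Type} [Fintype V] (G : SimpleGraph V) (L : ℕ) : Finset (Sym2 V) :=
  (Finset.range L).biUnion fun l => (cy G l).image fun f => s(f 0, f 1)

lemma card_rem {V : Type} [Fintype V] (G : SimpleGraph V) (L : ℕ) : (rem G L).card ≤ cyc L G := by
  refine Finset.card_biUnion_le.trans ?_
  unfold cyc
  exact Finset.sum_le_sum fun l _ => Finset.card_image_le

lemma mem_rem {V : Type} [Fintype V] (G : SimpleGraph V) (L l : ℕ) (hl : l < L)
    (f : Fin (l + 3) → V) (hf : Function.Injective f) (h : ∀ i : Fin (l + 3), G.Adj (f i) (f (i + 1))) :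
    s(f 0, f 1) ∈ rem G L := by
  refine Finset.mem_biUnion.2 ⟨l, Finset.mem_range.2 hl, Finset.mem_image.2 ⟨f, ?_, rfl⟩⟩
  exact Finset.mem_filter.2 ⟨Finset.mem_univ _, hf, h⟩

/-- a cycle as an injective function -/
lemma cycle_fun {V : Type} (E : SimpleGraph V) {v : V} (c : E.Walk v v) (hc : c.IsCycle) (l : ℕ)
    (hl : c.length = l + 3) : ∃ f : Fin (l + 3) → V, Function.Injective f ∧
      ∀ i : Fin (l + 3), E.Adj (f i) (f (i + 1)) := by
  refine ⟨fun i => c.getVert i.val, ?_, ?_⟩
  · intro i j hij
    have h1 := hc.getVert_injOn'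
    have hi : i.val ≤ c.length - 1 := by have := i.isLt; omega
    have hj : j.val ≤ c.length - 1 := by have := j.isLt; omega
    exact Fin.ext (h1 hi hj hij)
  · intro i
    show E.Adj (c.getVert i.val) (c.getVert (i + 1).val)
    by_cases h : i.val < l + 2
    · have e : (i + 1).val = i.val + 1 := by
        rw [Fin.val_add_one_of_lt]
        rw [Fin.lt_def]
        simpa using h
      rw [e]
      exact c.adj_getVert_succ (by omega)
    · have hi : i.val = l + 2 := by have := i.isLt; omega
      have e : i = Fin.last (l + 2) := Fin.ext hi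
      have e2 : (i + 1).val = 0 := by
        rw [e, Fin.last_add_one]
        rfl
      rw [e2, SimpleGraph.Walk.getVert_zero, hi]
      have h3 := c.adj_getVert_succ (i := l + 2) (by omega)
      have h4 : c.getVert (l + 2 + 1) = v := by
        have := c.getVert_length
        rw [hl] at this
        exact this
      rw [h4] at h3
      exact h3

theorem girth : S_GIRTH := by
  intro V _ G L
  refine ⟨G.deleteEdges (rem G L : Set (Sym2 V)), SimpleGraph.deleteEdges_le _, ?_, ?_⟩
  · unfold ec
    have h1 : G.edgeSet ⊆ (G.deleteEdges (rem G L : Set (Sym2 V))).edgeSet ∪ (rem G L : Set (Sym2 V)) := by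
      intro e he
      by_cases h : e ∈ (rem G L : Set (Sym2 V))
      · exact Or.inr h
      · left
        rw [SimpleGraph.edgeSet_deleteEdges]
        exact ⟨he, h⟩
    have h2 := Set.ncard_le_ncard h1 (Set.toFinite _)
    have h3 := Set.ncard_union_le (G.deleteEdges (rem G L : Set (Sym2 V))).edgeSet
      (rem G L : Set (Sym2 V))
    have h4 : (rem G L : Set (Sym2 V)).ncard ≤ cyc L G := by
      rw [Set.ncard_coe_finset]
      exact card_rem G L
    omega
  · intro E hE hec v c hc
    have h3 : 3 ≤ c.length := hc.three_le_length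
    have hlen : c.length ≤ ec E := by
      unfold ec
      have h5 : c.edges.toFinset.card = c.length := by
        rw [List.toFinset_card_of_nodup hc.isTrail.edges_nodup, SimpleGraph.Walk.length_edges]
      rw [← h5, ← Set.ncard_coe_finset]
      refine Set.ncard_le_ncard ?_ (Set.toFinite _)
      intro e he
      rw [Finset.mem_coe, List.mem_toFinset] at he
      exact c.edges_subset_edgeSet he
    obtain ⟨l, hl⟩ : ∃ l, c.length = l + 3 := ⟨c.length - 3, by omega⟩
    obtain ⟨f, hf, hadj⟩ := cycle_fun E c hc l hl
    have hmem := mem_rem G L l (by omega) f hf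
      (fun i => (SimpleGraph.deleteEdges_le _) (hE (hadj i)))
    have h6 := hE (hadj 0)
    rw [zero_add, SimpleGraph.deleteEdges_adj] at h6
    exact h6.2 hmem

end

end Pool.Agent.W174.HC
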